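import Pool.Agent.helper53.DC.SpecR

/-! R6: the coefficients lie in a subring that is a finitely generated abelian group. -/

set_option autoImplicit false

namespace Pool.Agent.helper70.DC

open Pool.Agent.helper53.DC

theorem R6 : R6_stmt := by
  intro B _ M
  set S : Set ℝ := Set.range fun p : B × B => cc M p.1 p.2 with hS
  have hfin : S.Finite := Set.finite_range _
  have hint : ∀ x ∈ S, IsIntegral ℤ x := by
    rintro x ⟨p, rfl⟩
    have h := Real.isIntegral_two_mul_cos_rat_mul_pi (1 / (M p.1 p.2 : ℚ))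
    have e : 2 * Real.cos (((1 / (M p.1 p.2 : ℚ) : ℚ) : ℝ) * Real.pi) = cc M p.1 p.2 := by
      unfold cc
      congr 2
      push_cast
      ring
    rw [e] at h
    exact h
  have hfg := fg_adjoin_of_finite hfin hint
  refine ⟨Subalgebra.toSubring (Algebra.adjoin ℤ S), ?_, ?_⟩
  · have h : Module.Finite ℤ (Subalgebra.toSubmodule (Algebra.adjoin ℤ S)) :=
      Module.Finite.iff_fg.2 hfg
    have h2 : AddMonoid.FG (Subalgebra.toSubmodule (Algebra.adjoin ℤ S)) := by
      have := Module.Finite.iff_addGroup_fg.1 h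
      exact AddGroup.fg_iff_addMonoid_fg.1 this
    have h3 : AddGroup.FG (Subalgebra.toSubring (Algebra.adjoin ℤ S)) :=
      AddGroup.fg_iff_addMonoid_fg.2 h2
    exact Module.Finite.iff_addGroup_fg.2 h3
  · intro i j
    exact Algebra.subset_adjoin ⟨(i, j), rfl⟩

end Pool.Agent.helper70.DC
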