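import Pool.Agent.helper53.DC.SpecR

/-! R7: separating an element of a finitely generated torsion free ring from zero in a finite ring. -/

set_option autoImplicit false

namespace Pool.Agent.helper70.DC

open Pool.Agent.helper53.DC

theorem R7 : R7_stmt := by
  intro A hA a ha
  haveI := hA
  haveI : Module.Free ℤ A := inferInstance
  let b := Module.Free.chooseBasis ℤ A
  obtain ⟨i, hi⟩ : ∃ i, b.repr a i ≠ 0 := by
    by_contra h
    push Not at h
    apply ha
    apply b.repr.map_eq_zero_iff.1
    ext i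
    exact h i
  set N : ℕ := (b.repr a i).natAbs + 1 with hN
  have hN0 : (N : ℤ) ≠ 0 := by omega
  refine ⟨A ⧸ Ideal.span {(N : A)}, inferInstance, ?_, Ideal.Quotient.mk _, ?_⟩
  · haveI : Module.Finite ℤ (A ⧸ Ideal.span {(N : A)}) :=
      Module.Finite.of_surjective
        ((Ideal.Quotient.mk (Ideal.span {(N : A)})).toAddMonoidHom.toIntLinearMap)
        Ideal.Quotient.mk_surjective
    apply Module.finite_of_fg_torsion
    intro x
    obtain ⟨y, rfl⟩ := Ideal.Quotient.mk_surjective x
    refine ⟨⟨(N : ℤ), mem_nonZeroDivisors_of_ne_zero hN0⟩, ?_⟩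
    show (N : ℤ) • (Ideal.Quotient.mk (Ideal.span {(N : A)}) y) = 0
    rw [← map_zsmul, Ideal.Quotient.eq_zero_iff_mem, Ideal.mem_span_singleton]
    refine ⟨y, ?_⟩
    simp
  · rw [Ne, Ideal.Quotient.eq_zero_iff_mem, Ideal.mem_span_singleton]
    rintro ⟨x, hx⟩
    have h1 : b.repr a i = (N : ℤ) * b.repr x i := by
      have h2 : a = (N : ℤ) • x := by
        rw [hx]
        simp
      conv_lhs => rw [h2]
      rw [map_zsmul]
      simp
    have h3 : (N : ℤ) ∣ b.repr a i := ⟨_, h1⟩
    have h4 := Int.natAbs_dvd_natAbs.2 h3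
    have h5 : 0 < (b.repr a i).natAbs := Int.natAbs_pos.2 hi
    have h6 := Nat.le_of_dvd h5 h4
    rw [Int.natAbs_natCast] at h6
    omega

end Pool.Agent.helper70.DC
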