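import Pool.Agent.helper58.DC.Spec1

set_option autoImplicit false

open Pool.Agent.helper58.DC

namespace Pool.Agent.helper70.DC

/-- the projection of a subgroup -/
abbrev PJf {G T : Type} [Group G] (t : T) (P : Subgroup (T → G)) : Subgroup G :=
  P.map (Pi.evalMonoidHom (fun _ => G) t)

open Classical in
/-- the normaliser of a set of products is a product -/
theorem PJ_nrm (hPI : PI_stmt) {G T : Type} [Group G] [Finite G] [Fintype T]
    (D : Finset (Subgroup (T → G)))
    (hD : ∀ P ∈ D, P = Subgroup.pi Set.univ fun t => PJf t P) :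
    nrm D = Subgroup.pi Set.univ fun t => nrm (D.image (PJf t)) := by
  ext x
  have h1 : x ∈ nrm D ↔ ∀ P ∈ D, x ∈ Subgroup.normalizer (P : Set (T → G)) := by
    simp only [nrm, Subgroup.mem_iInf]
  have h2 : x ∈ (Subgroup.pi Set.univ fun t => nrm (D.image (PJf t)) : Subgroup (T → G)) ↔
      ∀ t, ∀ P ∈ D, x t ∈ Subgroup.normalizer (PJf t P : Set G) := by
    rw [Subgroup.mem_pi]
    constructor
    · intro h t P hP
      have h3 := h t (Set.mem_univ t)
      simp only [nrm, Subgroup.mem_iInf] at h3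
      exact h3 _ (Finset.mem_image_of_mem _ hP)
    · intro h t _
      simp only [nrm, Subgroup.mem_iInf]
      intro Q hQ
      obtain ⟨P, hP, rfl⟩ := Finset.mem_image.1 hQ
      exact h t P hP
  rw [h1, h2]
  have h4 : ∀ P ∈ D, (x ∈ Subgroup.normalizer (P : Set (T → G)) ↔
      ∀ t, x t ∈ Subgroup.normalizer (PJf t P : Set G)) := by
    intro P hP
    have h5 := (hPI G T 0 (fun t => PJf t P) (fun t => PJf t P)).1
    rw [← hD P hP] at h5
    rw [h5, Subgroup.mem_pi]
    exact ⟨fun h t => h t (Set.mem_univ t), fun h t _ => h t⟩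
  constructor
  · intro h t P hP
    exact (h4 P hP).1 (h P hP) t
  · intro h P hP
    exact (h4 P hP).2 fun t => h t P hP

theorem PJ (hPR0 : PR0_stmt) (hPI : PI_stmt) (hPO : PO_stmt) (hRB : RB_stmt) : PJ_stmt := by
  classical
  intro G T _ _ _ p _ hG C hC t
  have hop : IsOp p (⊤ : Subgroup (T → G)) ⊥ := by
    have h := (hPO G T p (fun _ => ⊤) (fun _ => ⊥)).2 (fun _ => hG)
    have e1 : (Subgroup.pi Set.univ (fun _ => ⊤) : Subgroup (T → G)) = ⊤ := by
      ext x; simp [Subgroup.mem_pi]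
    have e2 : (Subgroup.pi Set.univ (fun _ => ⊥) : Subgroup (T → G)) = ⊥ := by
      ext x
      simp only [Subgroup.mem_pi, Subgroup.mem_bot]
      constructor
      · intro h; funext s; exact h s (Set.mem_univ s)
      · rintro rfl s _; rfl
    rw [e1, e2] at h
    exact h
  have hprod := hPR0 G T p hG C hC
  obtain ⟨hch, hbot, hrad⟩ := (hRB (T → G) p hop C).1 hC
  refine (hRB G p hG _).2 ⟨?_, ?_, ?_⟩
  · intro Q hQ Q' hQ' hne
    rw [Finset.mem_coe, Finset.mem_image] at hQ hQ'
    obtain ⟨P, hP, rfl⟩ := hQ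
    obtain ⟨P', hP', rfl⟩ := hQ'
    have hPP : P ≠ P' := by rintro rfl; exact hne rfl
    rcases hch hP hP' hPP with h | h
    · exact Or.inl (Subgroup.map_mono h)
    · exact Or.inr (Subgroup.map_mono h)
  · rw [Finset.mem_image]
    exact ⟨⊥, hbot, Subgroup.map_bot _⟩
  · intro Q hQ
    obtain ⟨P, hP, rfl⟩ := Finset.mem_image.1 hQ
    obtain ⟨hPp, hPop⟩ := hrad P hP
    have hD : ∀ P' ∈ C.filter (· ≤ P), P' = Subgroup.pi Set.univ fun t => PJf t P' :=
      fun P' hP' => hprod P' (Finset.mem_filter.1 hP').1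
    rw [PJ_nrm hPI _ hD, hprod P hP] at hPop
    have hmap : ∀ s, (Subgroup.pi Set.univ (fun s => PJf s P) : Subgroup (T → G)).map
        (Pi.evalMonoidHom (fun _ => G) s) = PJf s P := by
      intro s
      rw [← hprod P hP]
    have h1 := (hPO G T p _ _).1 hPop t
    rw [← hprod P hP] at h1
    have htr : (C.image (PJf t)).filter (· ≤ PJf t P) = (C.filter (· ≤ P)).image (PJf t) := by
      ext R
      simp only [Finset.mem_filter, Finset.mem_image]
      constructor
      · rintro ⟨⟨P', hP', rfl⟩, hle⟩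
        by_cases hPP : P' = P
        · exact ⟨P, ⟨hP, le_rfl⟩, by rw [hPP]⟩
        · rcases hch hP' hP hPP with h | h
          · exact ⟨P', ⟨hP', h⟩, rfl⟩
          · exact ⟨P, ⟨hP, le_rfl⟩, le_antisymm (Subgroup.map_mono h) hle⟩
      · rintro ⟨P', ⟨hP', hle⟩, rfl⟩
        exact ⟨⟨P', hP', rfl⟩, Subgroup.map_mono hle⟩
    refine ⟨hPp.map _, ?_⟩
    change IsOp p (nrm ((C.image (PJf t)).filter (· ≤ PJf t P))) (PJf t P)
    rw [htr]
    exact h1

end Pool.Agent.helper70.DC
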